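import Pool.Agent.Run7.h991.PS.Iface

/-! # The identity behind ORTA and ORTB (helper324, for project PS of helper991) -/

open MeasureTheory MvPolynomial

namespace Pool.Agent.Run7.h324.PS

theorem pcomm {σ : Type} (i j : σ) (f : MvPolynomial σ ℂ) :
    pderiv i (pderiv j f) = pderiv j (pderiv i f) := by
  classical
  have h : ⁅(pderiv i : Derivation ℂ (MvPolynomial σ ℂ) (MvPolynomial σ ℂ)),
      (pderiv j : Derivation ℂ (MvPolynomial σ ℂ) (MvPolynomial σ ℂ))⁆ = 0 := by
    apply MvPolynomial.derivation_ext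
    intro k
    rw [Derivation.commutator_apply]
    by_cases h1 : k = i <;> by_cases h2 : k = j <;>
      simp [pderiv_X, Pi.single_apply, h1, h2, eq_comm]
    all_goals
      split_ifs <;> simp
  have := congrArg (fun D => D f) h
  simp only [Derivation.commutator_apply] at this
  exact sub_eq_zero.1 this

/-- The identity. -/
theorem key {σ : Type} {n : ℕ} (u v : Fin n → σ) (huv : ∀ i j, u i ≠ v j)
    (hv : Function.Injective v) (P Q : MvPolynomial σ ℂ) (a b : ℂ)
    (hP : ∑ i, X (v i) * pderiv (v i) P = C a * P) (hQ : ∑ i, X (v i) * pderiv (v i) Q = C b * Q)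
    (hu : ∀ j, pderiv (u j) Q = 0) (hh : ∑ j, pderiv (u j) (pderiv (v j) P) = 0) :
    ∑ i : Fin n, ∑ j : Fin n, (X (u i) * pderiv (u j) (X (v i) * pderiv (v j) P * Q)
      - X (v j) * pderiv (v i) (X (v i) * pderiv (v j) P * Q)) =
      - (C (a * (n + a - 1 + b)) * (P * Q)) := by
  classical
  have h1 : ∀ i j, X (u i) * pderiv (u j) (X (v i) * pderiv (v j) P * Q) =
      (X (u i) * X (v i) * Q) * pderiv (u j) (pderiv (v j) P) := by
    intro i j
    rw [pderiv_mul, pderiv_mul, hu, pderiv_X_of_ne (huv j i).symm]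
    ring
  have h2 : ∀ i j, X (v j) * pderiv (v i) (X (v i) * pderiv (v j) P * Q) =
      (X (v j) * pderiv (v j) P) * Q + (X (v j) * Q) * (X (v i) * pderiv (v i) (pderiv (v j) P))
        + (X (v j) * pderiv (v j) P) * (X (v i) * pderiv (v i) Q) := by
    intro i j
    rw [pderiv_mul, pderiv_mul, pderiv_X_self]
    ring
  have h3 : ∀ j, ∑ i, X (v i) * pderiv (v i) (pderiv (v j) P) = C (a - 1) * pderiv (v j) P := by
    intro j
    have e : pderiv (v j) (∑ i, X (v i) * pderiv (v i) P) = pderiv (v j) (C a * P) := by rw [hP]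
    rw [map_sum, pderiv_mul, pderiv_C, zero_mul, zero_add] at e
    have e2 : ∀ i, pderiv (v j) (X (v i) * pderiv (v i) P) =
        (if i = j then pderiv (v j) P else 0) + X (v i) * pderiv (v i) (pderiv (v j) P) := by
      intro i
      rw [pderiv_mul, pcomm (v j) (v i)]
      congr 1
      split_ifs with hij
      · rw [hij, pderiv_X_self, one_mul]
      · rw [pderiv_X_of_ne (fun e => hij (hv e)), zero_mul]
    rw [Finset.sum_congr rfl (fun i _ => e2 i), Finset.sum_add_distrib, Finset.sum_ite_eq',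
      if_pos (Finset.mem_univ _)] at e
    rw [C_sub, C_1]
    linear_combination e
  simp only [h1, h2, Finset.sum_sub_distrib, Finset.sum_add_distrib]
  have s1 : ∑ i, ∑ j, (X (u i) * X (v i) * Q) * pderiv (u j) (pderiv (v j) P) = 0 := by
    apply Finset.sum_eq_zero
    intro i _
    rw [← Finset.mul_sum, hh, mul_zero]
  have s2 : ∑ i : Fin n, ∑ j, (X (v j) * pderiv (v j) P) * Q = C ((n : ℂ) * a) * (P * Q) := by
    rw [Finset.sum_const, Finset.card_univ, Fintype.card_fin, ← Finset.sum_mul, hP, nsmul_eq_mul,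
      C_mul, ← map_natCast (C : ℂ →+* MvPolynomial σ ℂ) n]
    ring
  have s3 : ∑ i, ∑ j, (X (v j) * Q) * (X (v i) * pderiv (v i) (pderiv (v j) P)) =
      C (a * (a - 1)) * (P * Q) := by
    rw [Finset.sum_comm]
    have : ∀ j, ∑ i, (X (v j) * Q) * (X (v i) * pderiv (v i) (pderiv (v j) P)) =
        (C (a - 1) * Q) * (X (v j) * pderiv (v j) P) := by
      intro j
      rw [← Finset.mul_sum, h3]
      ring
    rw [Finset.sum_congr rfl (fun j _ => this j), ← Finset.mul_sum, hP, C_mul]
    ring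
  have s4 : ∑ i, ∑ j, (X (v j) * pderiv (v j) P) * (X (v i) * pderiv (v i) Q) =
      C (a * b) * (P * Q) := by
    have : ∀ i, ∑ j, (X (v j) * pderiv (v j) P) * (X (v i) * pderiv (v i) Q) =
        (C a * P) * (X (v i) * pderiv (v i) Q) := by
      intro i
      rw [← Finset.sum_mul, hP]
    rw [Finset.sum_congr rfl (fun i _ => this i), ← Finset.mul_sum, hQ, C_mul]
    ring
  rw [s1, s2, s3, s4]
  have : C (a * (n + a - 1 + b)) = C ((n : ℂ) * a) + C (a * (a - 1)) + (C (a * b) : MvPolynomial σ ℂ) := by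
    rw [← C_add, ← C_add]
    congr 1
    ring
  rw [this]
  ring

theorem euler {n q : ℕ} (P : H991.PS.Poly n)
    (h : IsWeightedHomogeneous
      (Sum.elim (fun _ => 0) (fun _ => 1) : Fin n ⊕ Fin n → ℕ) P q) :
    ∑ i : Fin n, X (Sum.inr i) * pderiv (Sum.inr i) P = C (q : ℂ) * P := by
  have := h.sum_weight_X_mul_pderiv
  rw [Fintype.sum_sum_type] at this
  simpa [nsmul_eq_mul] using this

theorem euler' {n q : ℕ} (P : H991.PS.Poly n)
    (h : IsWeightedHomogeneous
      (Sum.elim (fun _ => 1) (fun _ => 0) : Fin n ⊕ Fin n → ℕ) P q) :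
    ∑ i : Fin n, X (Sum.inl i) * pderiv (Sum.inl i) P = C (q : ℂ) * P := by
  have := h.sum_weight_X_mul_pderiv
  rw [Fintype.sum_sum_type] at this
  simpa [nsmul_eq_mul] using this

/-- powers of linear forms -/
theorem lin {σ : Type} {n : ℕ} (v : Fin n → σ) (hv : Function.Injective v) (c : Fin n → ℂ) (r : ℕ) :
    ∑ i, X (v i) * pderiv (v i) ((∑ k, C (c k) * X (v k)) ^ r) =
      C (r : ℂ) * (∑ k, C (c k) * X (v k) : MvPolynomial σ ℂ) ^ r := by
  classical
  have h1 : ∀ i, pderiv (v i) (∑ k, C (c k) * X (v k) : MvPolynomial σ ℂ) = C (c i) := by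
    intro i
    rw [map_sum, Finset.sum_eq_single i]
    · rw [pderiv_C_mul, pderiv_X_self, mul_one]
    · intro k _ hk
      rw [pderiv_C_mul, pderiv_X_of_ne (fun e => hk (hv e)), mul_zero]
    · intro h; exact absurd (Finset.mem_univ _) h
  rcases r with _ | r
  · simp
  · have : ∀ i, X (v i) * pderiv (v i) ((∑ k, C (c k) * X (v k)) ^ (r + 1)) =
        (((r + 1 : ℕ) : MvPolynomial σ ℂ) * (∑ k, C (c k) * X (v k)) ^ r) * (C (c i) * X (v i)) := by
      intro i
      rw [pderiv_pow, h1, Nat.add_sub_cancel]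
      ring
    rw [Finset.sum_congr rfl (fun i _ => this i), ← Finset.mul_sum, map_natCast]
    ring

theorem lin0 {σ : Type} {n : ℕ} (u v : Fin n → σ) (huv : ∀ i j, u i ≠ v j) (c : Fin n → ℂ) (r : ℕ)
    (j : Fin n) : pderiv (u j) ((∑ k, C (c k) * X (v k) : MvPolynomial σ ℂ) ^ r) = 0 := by
  have h : pderiv (u j) (∑ k, C (c k) * X (v k) : MvPolynomial σ ℂ) = 0 := by
    rw [map_sum]
    apply Finset.sum_eq_zero
    intro k _
    rw [pderiv_C_mul, pderiv_X_of_ne (huv j k).symm, mul_zero]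
  rw [pderiv_pow, h, mul_zero]

theorem cont_ev {n : ℕ} (P : H991.PS.Poly n) : Continuous fun z : H991.PS.S n => H991.PS.ev P z.1 := by
  unfold H991.PS.ev
  refine (MvPolynomial.continuous_eval P).comp ?_
  refine continuous_pi fun k => ?_
  rcases k with k | k
  · change Continuous fun z : H991.PS.S n => z.1 k
    fun_prop
  · change Continuous fun z : H991.PS.S n => star (z.1 k)
    fun_prop

theorem int_sum {n : ℕ} (σ : Measure (H991.PS.S n)) [IsProbabilityMeasure σ]
    (G : Fin n → Fin n → H991.PS.Poly n) (h : ∀ i j, ∫ z : H991.PS.S n, H991.PS.ev (G i j) z.1 ∂σ = 0) :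
    ∫ z : H991.PS.S n, H991.PS.ev (∑ i, ∑ j, G i j) z.1 ∂σ = 0 := by
  have e : ∀ z : H991.PS.S n, H991.PS.ev (∑ i, ∑ j, G i j) z.1 =
      ∑ i, ∑ j, H991.PS.ev (G i j) z.1 := by
    intro z
    simp only [H991.PS.ev, map_sum]
  simp only [e]
  rw [integral_finsetSum]
  · apply Finset.sum_eq_zero
    intro i _
    rw [integral_finsetSum]
    · exact Finset.sum_eq_zero fun j _ => h i j
    · intro j _
      exact H991.PS.cint σ (cont_ev _)
  · intro i _
    exact H991.PS.cint σ (continuous_finsetSum _ fun j _ => cont_ev _)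

end Pool.Agent.Run7.h324.PS
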