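import Pool.Agent.Run7.h324.PS.A

/-! # Piece ORTA of project PS (helper324) -/

open MeasureTheory MvPolynomial Pool.Agent.Run7.h324.PS

namespace H991.PS

theorem t_ORTA (hI : S_INV) : S_ORTA := by
  intro n hn σ _ hσ p q P hP hq ζ r
  set Q : Poly n := (∑ k, C (ζ.1 k) * MvPolynomial.X (Sum.inr k)) ^ r with hQ
  have hinj : Function.Injective (Sum.inr : Fin n → Fin n ⊕ Fin n) := Sum.inr_injective
  have hne : ∀ i j : Fin n, (Sum.inl i : Fin n ⊕ Fin n) ≠ Sum.inr j := fun i j => by simp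
  have K := key (fun i : Fin n => (Sum.inl i : Fin n ⊕ Fin n)) Sum.inr hne hinj P Q q r
    (euler P hP.2.1) (lin Sum.inr hinj ζ.1 r) (lin0 _ _ hne ζ.1 r) hP.2.2
  have h0 := int_sum σ (fun i j => T i j (MvPolynomial.X (Sum.inr i) * pderiv (Sum.inr j) P * Q))
    (fun i j => hI n σ hσ _ i j)
  have e : ∀ z : S n, ev (∑ i, ∑ j, T i j (MvPolynomial.X (Sum.inr i) * pderiv (Sum.inr j) P * Q)) z.1 =
      (-((q : ℂ) * (n + q - 1 + r))) * (ev P z.1 * star (ip z.1 ζ.1 ^ r)) := by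
    intro z
    have hT : ∑ i, ∑ j, T i j (MvPolynomial.X (Sum.inr i) * pderiv (Sum.inr j) P * Q) =
        - (C ((q : ℂ) * (n + q - 1 + r)) * (P * Q)) := K
    rw [hT]
    have hQz : ev Q z.1 = star (ip z.1 ζ.1 ^ r) := by
      rw [hQ]
      unfold ev ip
      rw [map_pow, map_sum, star_pow, PiLp.inner_apply, star_sum]
      congr 1
      apply Finset.sum_congr rfl
      intro k _
      simp [mul_comm]
    rw [← hQz]
    unfold ev
    simp only [map_neg, map_mul, eval_C]
    ring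
  simp only [e] at h0
  rw [integral_const_mul] at h0
  refine (mul_eq_zero.1 h0).resolve_left ?_
  intro hc
  have hc2 := neg_eq_zero.1 hc
  have h1 : ((q : ℂ) * (n + q - 1 + r)) = ((q * (n + q - 1 + r) : ℕ) : ℂ) := by
    rw [Nat.cast_mul, Nat.cast_add, Nat.cast_sub (by omega), Nat.cast_add, Nat.cast_one]
  rw [h1, Nat.cast_eq_zero] at hc2
  exact Nat.mul_ne_zero (by omega) (by omega) hc2

end H991.PS
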