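import Pool.Agent.Run7.h324.PS.A

/-! # Piece ORTB of project PS (helper324) -/

open MeasureTheory MvPolynomial Pool.Agent.Run7.h324.PS

namespace H991.PS

theorem t_ORTB (hI : S_INV) : S_ORTB := by
  intro n hn σ _ hσ p q P hP hp ζ r
  set Q : Poly n := (∑ k, C (star (ζ.1 k)) * MvPolynomial.X (Sum.inl k)) ^ r with hQ
  have hinj : Function.Injective (Sum.inl : Fin n → Fin n ⊕ Fin n) := Sum.inl_injective
  have hne : ∀ i j : Fin n, (Sum.inr i : Fin n ⊕ Fin n) ≠ Sum.inl j := fun i j => by simp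
  have hh : ∑ j : Fin n, pderiv (Sum.inr j) (pderiv (Sum.inl j) P) = 0 := by
    rw [← hP.2.2]
    exact Finset.sum_congr rfl fun j _ => pcomm _ _ _
  have K := key (fun i : Fin n => (Sum.inr i : Fin n ⊕ Fin n)) Sum.inl hne hinj P Q p r
    (euler' P hP.1) (lin Sum.inl hinj (fun k => star (ζ.1 k)) r)
    (lin0 _ _ hne (fun k => star (ζ.1 k)) r) hh
  have h0 := int_sum σ (fun i j => T i j (MvPolynomial.X (Sum.inl j) * pderiv (Sum.inl i) P * Q))
    (fun i j => hI n σ hσ _ i j)
  have e : ∀ z : S n, ev (∑ i, ∑ j, T i j (MvPolynomial.X (Sum.inl j) * pderiv (Sum.inl i) P * Q)) z.1 =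
      ((p : ℂ) * (n + p - 1 + r)) * (ev P z.1 * ip z.1 ζ.1 ^ r) := by
    intro z
    have hT : ∑ i, ∑ j, T i j (MvPolynomial.X (Sum.inl j) * pderiv (Sum.inl i) P * Q) =
        C ((p : ℂ) * (n + p - 1 + r)) * (P * Q) := by
      rw [Finset.sum_comm, ← neg_inj, ← K, ← Finset.sum_neg_distrib]
      apply Finset.sum_congr rfl
      intro i _
      rw [← Finset.sum_neg_distrib]
      apply Finset.sum_congr rfl
      intro j _
      unfold T
      ring
    rw [hT]
    have hQz : ev Q z.1 = ip z.1 ζ.1 ^ r := by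
      rw [hQ]
      unfold ev ip
      rw [map_pow, map_sum, PiLp.inner_apply]
      congr 1
      apply Finset.sum_congr rfl
      intro k _
      simp [mul_comm]
    rw [← hQz]
    unfold ev
    simp only [map_mul, eval_C]
  simp only [e] at h0
  rw [integral_const_mul] at h0
  refine (mul_eq_zero.1 h0).resolve_left ?_
  have h1 : ((p : ℂ) * (n + p - 1 + r)) = ((p * (n + p - 1 + r) : ℕ) : ℂ) := by
    rw [Nat.cast_mul, Nat.cast_add, Nat.cast_sub (by omega), Nat.cast_add, Nat.cast_one]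
  intro hc2
  rw [h1, Nat.cast_eq_zero] at hc2
  exact Nat.mul_ne_zero (by omega) (by omega) hc2

end H991.PS
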